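import Pool.Agent.KDS.StmtsB

/-!
# Squad KDS, row CLF
-/

set_option autoImplicit false

open Polynomial Pool.Agent.SZT Pool.Agent.KDT

namespace Pool.Agent.KDS.H38

/-- The pairs `i < j`. -/
private abbrev Pr : Type := {p : Fin 5 × Fin 5 // p.1 < p.2}

/-- The signs. -/
private def sg (K : Type) [Field K] (p : Pr) (k : Fin 5) : K :=
  if k = p.1.1 ∨ k = p.1.2 then -1 else 1

private theorem clf_dec : ∀ p p' : Pr,
    (∀ k : Fin 5, (k = p.1.1 ∨ k = p.1.2) ↔ (k = p'.1.1 ∨ k = p'.1.2)) → p = p' := by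
  decide

private theorem clf_char {K : Type} [Field K] (h2 : (2 : K) ≠ 0) (g : Pr → K)
    (h : ∀ l : List (Fin 5), ∑ p, g p * (l.map (sg K p)).prod = 0) : ∀ p, g p = 0 := by
  have hne : (-1 : K) ≠ 1 := by
    intro h1
    apply h2
    have h3 : (1 : K) + 1 = 0 := by
      nth_rewrite 1 [← h1]
      exact neg_add_cancel 1
    rw [← one_add_one_eq_two]
    exact h3
  let χ : Pr → (FreeMonoid (Fin 5) →* K) := fun p => FreeMonoid.lift (sg K p)
  have hinj : Function.Injective χ := by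
    intro p p' hpp
    refine clf_dec p p' fun k => ?_
    have h1 : sg K p k = sg K p' k := by
      have h3 := DFunLike.congr_fun hpp (FreeMonoid.of k)
      simpa [χ] using h3
    unfold sg at h1
    by_cases ha : k = p.1.1 ∨ k = p.1.2
    · by_cases hb : k = p'.1.1 ∨ k = p'.1.2
      · exact ⟨fun _ => hb, fun _ => ha⟩
      · rw [if_pos ha, if_neg hb] at h1
        exact absurd h1 hne
    · by_cases hb : k = p'.1.1 ∨ k = p'.1.2
      · rw [if_neg ha, if_pos hb] at h1
        exact absurd h1.symm hne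
      · exact ⟨fun h => absurd h ha, fun h => absurd h hb⟩
  have hli := (linearIndependent_monoidHom (FreeMonoid (Fin 5)) K).comp χ hinj
  refine Fintype.linearIndependent_iff.1 hli g ?_
  funext x
  rw [Finset.sum_apply]
  have h1 := h (FreeMonoid.toList x)
  rw [Pi.zero_apply, ← h1]
  refine Finset.sum_congr rfl fun p _ => ?_
  rw [Pi.smul_apply, smul_eq_mul]
  congr 1
  exact FreeMonoid.lift_apply _ _

private theorem clf_E_mem (i j : Fin 4) :
    (Pi.single i 1 + Pi.single j 1 : Fin 4 → ℕ) ∈ Ex 2 := by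
  unfold Ex
  rw [Finset.mem_filter, Fintype.mem_piFinset]
  refine ⟨fun k => ?_, ?_⟩
  · rw [Finset.mem_range]
    revert i j k
    decide
  · revert i j
    decide

private theorem clf_prod_single {K : Type} [Field K] (v : Fin 4 → K) (i : Fin 4) :
    ∏ k, v k ^ ((Pi.single i 1 : Fin 4 → ℕ) k) = v i := by
  rw [Fintype.prod_eq_single i]
  · rw [Pi.single_eq_same, pow_one]
  · intro k hk
    rw [Pi.single_eq_of_ne hk, pow_zero]

private theorem clf_mon {K : Type} [Field K] (v : Fin 4 → K) (i j : Fin 4) :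
    mon (Pi.single i 1 + Pi.single j 1 : Fin 4 → ℕ) v = v i * v j := by
  unfold mon
  simp only [Pi.add_apply, pow_add]
  rw [Finset.prod_mul_distrib, clf_prod_single, clf_prod_single]

/-- Quadratic forms in the monomials. -/
private theorem clf_quad {K : Type} [Field K] (Φ : (Fin 4 → K) → K) (B : Fin 4 → Fin 4 → K)
    (h : ∀ v, Φ v = ∑ i, ∑ j, B i j * (v i * v j)) :
    ∃ q : Ex 2 → K, ∀ v, Φ v = ∑ e, q e * mon e.1 v := by
  classical
  refine ⟨fun e => ∑ i, ∑ j, if (Pi.single i 1 + Pi.single j 1 : Fin 4 → ℕ) = e.1 then B i j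
    else 0, fun v => ?_⟩
  rw [h]
  symm
  calc ∑ e : Ex 2, (∑ i, ∑ j, if (Pi.single i 1 + Pi.single j 1 : Fin 4 → ℕ) = e.1 then B i j
        else 0) * mon e.1 v
      = ∑ e : Ex 2, ∑ i, ∑ j, (if (Pi.single i 1 + Pi.single j 1 : Fin 4 → ℕ) = e.1 then B i j
        else 0) * mon e.1 v := by simp only [Finset.sum_mul]
    _ = ∑ i, ∑ e : Ex 2, ∑ j, (if (Pi.single i 1 + Pi.single j 1 : Fin 4 → ℕ) = e.1 then B i j
        else 0) * mon e.1 v := Finset.sum_comm
    _ = ∑ i, ∑ j, ∑ e : Ex 2, (if (Pi.single i 1 + Pi.single j 1 : Fin 4 → ℕ) = e.1 then B i j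
        else 0) * mon e.1 v := Finset.sum_congr rfl fun i _ => Finset.sum_comm
    _ = ∑ i, ∑ j, B i j * (v i * v j) := by
      refine Finset.sum_congr rfl fun i _ => Finset.sum_congr rfl fun j _ => ?_
      rw [Finset.sum_eq_single (⟨_, clf_E_mem i j⟩ : Ex 2)]
      · rw [if_pos rfl, clf_mon]
      · intro e _ he
        rw [if_neg, zero_mul]
        intro h1
        exact he (Subtype.ext h1.symm)
      · intro h1
        exact absurd (Finset.mem_univ _) h1

private theorem clf_card : Fintype.card Pr = Fintype.card (Ex 2) := by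
  decide

/-- `MT f a` as a linear map. -/
private theorem clf_lin (hCLM : ClmStatement) {K : Type} [Field K] (f : K[X]) (a : K) :
    ∃ L : (Fin 4 → K) →ₗ[K] (Fin 4 → K), ∀ v, L v = MT f a v := by
  have h : ∀ (c : K) (u v : Fin 4 → K), MT f a (c • u + v) = c • MT f a u + MT f a v :=
    fun c u v => (hCLM K f a 0 u v c).2.2.2.1
  have h0 : MT f a 0 = 0 := by
    have h1 := h (-1) 0 0
    rw [smul_zero, zero_add, neg_smul, one_smul, neg_add_cancel] at h1
    exact h1
  refine ⟨{ toFun := MT f a, map_add' := ?_, map_smul' := ?_ }, fun v => rfl⟩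
  · intro u v
    have h1 := h 1 u v
    rw [one_smul, one_smul] at h1
    exact h1
  · intro c u
    have h1 := h c u 0
    rw [add_zero, h0, add_zero] at h1
    exact h1

/-- `QQ f a b` is a quadratic form. -/
private theorem clf_QQ_quad (hCLM : ClmStatement) {K : Type} [Field K] (f : K[X]) (a b : K) :
    ∃ q : Ex 2 → K, ∀ v, QQ f a b v = ∑ e, q e * mon e.1 v := by
  obtain ⟨La, hLa⟩ := clf_lin hCLM f a
  obtain ⟨Lb, hLb⟩ := clf_lin hCLM f b
  set L := La.comp Lb with hL
  have hLv : ∀ v, MT f a (MT f b v) = L v := fun v => by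
    rw [← hLa, ← hLb]; rfl
  have hsum : ∀ (v : Fin 4 → K) (k : Fin 4),
      L v k = ∑ j, v j * L (Pi.single j 1) k := by
    intro v k
    rw [LinearMap.pi_apply_eq_sum_univ L v, Finset.sum_apply]
    refine Finset.sum_congr rfl fun j _ => ?_
    rw [Pi.smul_apply, smul_eq_mul]
    have h1 : (fun i => if j = i then (1 : K) else 0) = Pi.single j 1 := by
      funext i
      by_cases hij : j = i
      · subst hij
        rw [if_pos rfl, Pi.single_eq_same]
      · rw [if_neg hij, Pi.single_eq_of_ne (Ne.symm hij)]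
    rw [h1]
  refine clf_quad _ (![fun j => -(L (Pi.single j 1) 3), fun j => L (Pi.single j 1) 2,
    fun j => -(L (Pi.single j 1) 1), fun j => L (Pi.single j 1) 0]) fun v => ?_
  unfold QQ XX
  rw [hLv, hsum v 0, hsum v 1, hsum v 2, hsum v 3]
  simp only [Fin.sum_univ_four, Matrix.cons_val]
  ring

/-- The action on `QQ`. -/
private theorem clf_QM (hCLM : ClmStatement) {K : Type} [Field K] (f : K[X])
    (θ : Fin 5 → K) (hfm : f.Monic) (hfd : f.natDegree = 5) (hθ : Function.Injective θ)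
    (hr : ∀ k, f.IsRoot (θ k)) (p : Pr) (k : Fin 5) (v : Fin 4 → K) :
    QQ f (θ p.1.1) (θ p.1.2) (MT f (θ k) v) =
      sg K p k * (fd f (θ k) * QQ f (θ p.1.1) (θ p.1.2) v) := by
  obtain ⟨⟨i, j⟩, hij⟩ := p
  have hij' : i < j := hij
  change QQ f (θ i) (θ j) (MT f (θ k) v) =
    (if k = i ∨ k = j then -1 else 1) * (fd f (θ k) * QQ f (θ i) (θ j) v)
  have hanti : ∀ a b : Fin 5, a ≠ b → ∀ w, MT f (θ a) (MT f (θ b) w) =
      -MT f (θ b) (MT f (θ a) w) := fun a b hab w =>
    (hCLM K f (θ a) (θ b) w 0 0).2.1 hfm hfd (hr a) (hr b) (fun h => hab (hθ h))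
  have hneg : ∀ (a : K) (w : Fin 4 → K), MT f a (-w) = -MT f a w := by
    intro a w
    obtain ⟨L, hL⟩ := clf_lin hCLM f a
    rw [← hL, ← hL, map_neg]
  have hXX : ∀ (a : K) (w w' : Fin 4 → K), XX (MT f a w) (MT f a w') = fd f a * XX w w' :=
    fun a w w' => (hCLM K f a 0 w w' 0).2.2.1
  have hXn : ∀ w w' : Fin 4 → K, XX w (-w') = -XX w w' := by
    intro w w'
    have h1 := (hCLM K f 0 0 w w' (-1)).2.2.2.2.2.2.2
    rw [neg_smul, one_smul, neg_one_mul] at h1
    exact h1
  unfold QQ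
  by_cases hki : k = i
  · subst hki
    rw [if_pos (Or.inl rfl), hanti j k hij'.ne', hneg, hXn, hXX]
    ring
  · by_cases hkj : k = j
    · subst hkj
      rw [if_pos (Or.inr rfl), hanti i k (fun h => hki h.symm) (MT f (θ k) v), hXn, hXX]
      ring
    · rw [if_neg (by tauto), hanti j k (fun h => hkj h.symm), hneg,
        hanti i k (fun h => hki h.symm), neg_neg, hXX, one_mul]

/-- The action of words. -/
private theorem clf_Ql (hCLM : ClmStatement) {K : Type} [Field K] (f : K[X])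
    (θ : Fin 5 → K) (hfm : f.Monic) (hfd : f.natDegree = 5) (hθ : Function.Injective θ)
    (hr : ∀ k, f.IsRoot (θ k)) (p : Pr) (w : Fin 4 → K) (l : List (Fin 5)) :
    QQ f (θ p.1.1) (θ p.1.2) (l.foldr (fun k v => MT f (θ k) v) w) =
      (l.map fun k => fd f (θ k)).prod *
        (QQ f (θ p.1.1) (θ p.1.2) w * (l.map (sg K p)).prod) := by
  induction l with
  | nil => simp
  | cons k l ih =>
    rw [List.foldr_cons, clf_QM hCLM f θ hfm hfd hθ hr, ih, List.map_cons, List.prod_cons,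
      List.map_cons, List.prod_cons]
    ring

/-- The derivative at the roots. -/
private theorem clf_fd_ne (hCLM : ClmStatement) {K : Type} [Field K] (f : K[X])
    (θ : Fin 5 → K) (hfm : f.Monic) (hfd : f.natDegree = 5) (hθ : Function.Injective θ)
    (hr : ∀ k, f.IsRoot (θ k)) (k : Fin 5) : fd f (θ k) ≠ 0 := by
  classical
  intro h
  rw [← (hCLM K f (θ k) 0 0 0 0).2.2.2.2.1 hfm hfd] at h
  have h1 : 1 < f.rootMultiplicity (θ k) :=
    (one_lt_rootMultiplicity_iff_isRoot hfm.ne_zero).2 ⟨hr k, h⟩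
  have h2 : (Finset.univ.image θ) ⊆ f.roots.toFinset := by
    intro x hx
    obtain ⟨j, -, rfl⟩ := Finset.mem_image.1 hx
    rw [Multiset.mem_toFinset, mem_roots hfm.ne_zero]
    exact hr j
  have h3 := Finset.card_le_card h2
  rw [Finset.card_image_of_injective _ hθ, Finset.card_univ, Fintype.card_fin] at h3
  have h4 : f.roots.card ≤ 5 := by
    rw [← hfd]
    exact card_roots' f
  have h5 : f.roots.toFinset.card = f.roots.card :=
    le_antisymm (Multiset.toFinset_card_le _) (h4.trans h3)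
  have h6 := Multiset.toFinset_card_eq_card_iff_nodup.1 h5
  have h7 := Multiset.nodup_iff_count_le_one.1 h6 (θ k)
  rw [count_roots] at h7
  omega

/-- Independence of the `QQ` on the orbit of `w`. -/
private theorem clf_L (hCLM : ClmStatement) {K : Type} [Field K] (h2 : (2 : K) ≠ 0) (f : K[X])
    (θ : Fin 5 → K) (hfm : f.Monic) (hfd : f.natDegree = 5) (hθ : Function.Injective θ)
    (hr : ∀ k, f.IsRoot (θ k)) (w : Fin 4 → K)
    (hw : ∀ p : Pr, QQ f (θ p.1.1) (θ p.1.2) w ≠ 0) (γ : Pr → K)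
    (h : ∀ l : List (Fin 5), ∑ p, γ p *
      QQ f (θ p.1.1) (θ p.1.2) (l.foldr (fun k v => MT f (θ k) v) w) = 0) : ∀ p, γ p = 0 := by
  have h1 := clf_char h2 (fun p => γ p * QQ f (θ p.1.1) (θ p.1.2) w) (fun l => ?_)
  · intro p
    exact (mul_eq_zero.1 (h1 p)).resolve_right (hw p)
  · have h3 := h l
    have h4 : (l.map fun k => fd f (θ k)).prod ≠ 0 := by
      intro h5
      rw [List.prod_eq_zero_iff, List.mem_map] at h5
      obtain ⟨k, -, hk⟩ := h5
      exact clf_fd_ne hCLM f θ hfm hfd hθ hr k hk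
    refine (mul_eq_zero.1 (?_ : (l.map fun k => fd f (θ k)).prod * _ = 0)).resolve_left h4
    rw [← h3, Finset.mul_sum]
    refine Finset.sum_congr rfl fun p _ => ?_
    rw [clf_Ql hCLM f θ hfm hfd hθ hr]
    ring

/-- Row CLF. -/
theorem clf (hCLM : ClmStatement) : ClfStatement := by
  intro K _ f θ u h2 hfm hfd hθ hr hu G hG
  have hq : ∀ p : Pr, ∃ q : Ex 2 → K, ∀ v, QQ f (θ p.1.1) (θ p.1.2) v =
      ∑ e, q e * mon e.1 v := fun p => clf_QQ_quad hCLM f _ _
  choose q hq using hq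
  have hexp : ∀ (γ : Pr → K) (v : Fin 4 → K),
      ∑ e, (∑ p, γ p • q p) e * mon e.1 v = ∑ p, γ p * QQ f (θ p.1.1) (θ p.1.2) v := by
    intro γ v
    calc ∑ e, (∑ p, γ p • q p) e * mon e.1 v
        = ∑ e, ∑ p, γ p * (q p e * mon e.1 v) := by
          refine Finset.sum_congr rfl fun e _ => ?_
          rw [Finset.sum_apply, Finset.sum_mul]
          refine Finset.sum_congr rfl fun p _ => ?_
          rw [Pi.smul_apply, smul_eq_mul, mul_assoc]
      _ = ∑ p, ∑ e, γ p * (q p e * mon e.1 v) := Finset.sum_comm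
      _ = ∑ p, γ p * QQ f (θ p.1.1) (θ p.1.2) v := by
          refine Finset.sum_congr rfl fun p _ => ?_
          rw [hq, Finset.mul_sum]
  have hli : LinearIndependent K q := by
    rw [Fintype.linearIndependent_iff]
    intro γ hγ
    refine clf_L hCLM h2 f θ hfm hfd hθ hr ![0, 0, 0, 1] (fun p => ?_) γ (fun l => ?_)
    · rw [(hCLM K f (θ p.1.1) (θ p.1.2) 0 0 0).2.2.2.2.2.1, sub_ne_zero]
      exact fun h => p.2.ne' (hθ h)
    · rw [← hexp, hγ]
      exact Finset.sum_eq_zero fun e _ => by rw [Pi.zero_apply, zero_mul]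
  have hspan := hli.span_eq_top_of_card_eq_finrank' (by
    rw [Module.finrank_fintype_fun_eq_card]
    exact clf_card)
  have hGm : G ∈ Submodule.span K (Set.range q) := by
    rw [hspan]
    exact Submodule.mem_top
  obtain ⟨γ, hγ⟩ := (Submodule.mem_span_range_iff_exists_fun K).1 hGm
  have h3 := clf_L hCLM h2 f θ hfm hfd hθ hr u (fun p => hu p.1.1 p.1.2 p.2) γ (fun l => by
    rw [← hexp, hγ]
    exact hG l)
  rw [← hγ]
  exact Finset.sum_eq_zero fun p _ => by rw [h3 p, zero_smul]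

end Pool.Agent.KDS.H38
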